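import Pool.Agent.P8H65.EV.Tau
import Pool.Agent.P8H7.SV.Disc

/-!
# Project EV (helper8): packages FLAT, HCON
-/

set_option autoImplicit false

open MeasureTheory Set Filter Metric
open scoped Topology ContDiff ComplexConjugate

namespace Pool.Agent.P8H65.EV

open Pool.Agent.P8H8.SV Pool.Agent.P8H8.EV

theorem t_FLAT : S_FLAT := by
  intro φ r Θ h hA hm t0
  set G : ℂ → ℂ := fun w => 1 + w * deriv (deriv φ) w / deriv φ w with hG
  have hmem := h.mem t0
  have ha1 : AnalyticAt ℂ φ (Complex.exp (t0 * Complex.I)) :=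
    h.hol.analyticAt (isOpen_ball.mem_nhds hmem)
  have hne : deriv φ (Complex.exp (t0 * Complex.I)) ≠ 0 := h.deriv_ne hmem
  have haG : AnalyticAt ℂ G (Complex.exp (t0 * Complex.I)) := by
    have h1 : AnalyticAt ℂ (deriv φ) (Complex.exp (t0 * Complex.I)) := ha1.deriv
    have h2 : AnalyticAt ℂ (deriv (deriv φ)) (Complex.exp (t0 * Complex.I)) := h1.deriv
    exact analyticAt_const.add ((analyticAt_id.mul h2).div h1 hne)
  have hGR : AnalyticAt ℝ G (Complex.exp (t0 * Complex.I)) := haG.restrictScalars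
  have hE : AnalyticAt ℝ (fun s : ℝ => Complex.exp (s * Complex.I)) t0 := by
    have h1 : AnalyticAt ℝ (fun s : ℝ => (s : ℂ) * Complex.I) t0 :=
      (Complex.ofRealCLM.analyticAt t0).mul analyticAt_const
    have h2 : AnalyticAt ℝ Complex.exp ((t0 : ℂ) * Complex.I) :=
      (analyticAt_cexp (z := (t0 : ℂ) * Complex.I)).restrictScalars
    exact AnalyticAt.comp_of_eq (g := Complex.exp) (f := fun s : ℝ => (s : ℂ) * Complex.I) h2 h1 rfl
  have hc : AnalyticAt ℝ (fun s : ℝ => G (Complex.exp (s * Complex.I))) t0 :=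
    AnalyticAt.comp_of_eq (g := G) (f := fun s : ℝ => Complex.exp (s * Complex.I)) hGR hE rfl
  have hd : AnalyticAt ℝ (deriv Θ) t0 := by
    have h1 : AnalyticAt ℝ (fun s : ℝ => (G (Complex.exp (s * Complex.I))).re) t0 :=
      AnalyticAt.comp_of_eq (g := Complex.reCLM)
        (f := fun s : ℝ => G (Complex.exp (s * Complex.I))) (Complex.reCLM.analyticAt _) hc rfl
    have h2 : deriv Θ = fun s : ℝ => (G (Complex.exp (s * Complex.I))).re := by
      funext s
      rw [hA.der]
    rw [h2]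
    exact h1
  rcases hd.eventually_eq_zero_or_eventually_ne_zero with h0 | h0
  · exfalso
    rw [Metric.eventually_nhds_iff_ball] at h0
    obtain ⟨ε, hε, h1⟩ := h0
    have hΘd : ∀ t, HasDerivAt Θ (deriv Θ t) t := fun t =>
      (hA.sm.differentiable (by simp) t).hasDerivAt
    have hlt : t0 < t0 + ε / 2 := by linarith
    obtain ⟨c, hc1, hc2⟩ := exists_hasDerivAt_eq_slope Θ (deriv Θ) hlt
      hA.sm.continuous.continuousOn (fun x _ => hΘd x)
    have hcb : c ∈ ball t0 ε := by
      rw [Real.ball_eq_Ioo]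
      exact ⟨by linarith [hc1.1], by linarith [hc1.2]⟩
    rw [h1 c hcb] at hc2
    have : 0 < (Θ (t0 + ε / 2) - Θ t0) / (t0 + ε / 2 - t0) :=
      div_pos (by linarith [hm hlt]) (by linarith)
    linarith
  · exact h0

/-- a continuous function vanishing where the curvature does not vanish is zero -/
theorem zero_of_flat {Θ g : ℝ → ℝ} (hF : ∀ t0 : ℝ, ∀ᶠ t in 𝓝[≠] t0, deriv Θ t ≠ 0)
    (hg : Continuous g) (h0 : ∀ t, deriv Θ t ≠ 0 → g t = 0) (t : ℝ) : g t = 0 := by
  have h1 : ∀ᶠ s in 𝓝[≠] t, g s = 0 := (hF t).mono fun s hs => h0 s hs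
  have h2 : Tendsto g (𝓝[≠] t) (𝓝 (g t)) := hg.continuousAt.mono_left nhdsWithin_le_nhds
  have h3 : Tendsto g (𝓝[≠] t) (𝓝 0) := tendsto_const_nhds.congr' (h1.mono fun s hs => hs.symm)
  exact tendsto_nhds_unique h2 h3

theorem t_HCON : S_HCON := by
  intro φ r Θ a R h hA hm hR hR0
  have hg : ∀ t, (zz φ Θ a t).im = 0 := by
    refine zero_of_flat (t_FLAT φ r Θ h hA hm)
      (Complex.continuous_im.comp (contDiff_zz h hA a).continuous) fun t ht => ?_
    have h1 := re_der h hA a t
    have h2 : (fun t => (zz φ Θ a t).re) = fun _ => R := by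
      funext s
      rw [zz_re, hR]
    rw [h2] at h1
    have h3 := h1.unique (hasDerivAt_const t R)
    rcases mul_eq_zero.1 h3 with h4 | h4
    · exact h4
    · exact absurd h4 ht
  apply Pool.Agent.P8H7.SV.t_DISC φ r a R h hR0
  intro t
  have h1 : zz φ Θ a t = R := by
    apply Complex.ext
    · rw [zz_re, hR]; simp
    · rw [hg]; simp
  have h2 : ‖zz φ Θ a t‖ = ‖γ φ t - a‖ := by
    unfold zz
    rw [norm_mul]
    have : (-((Θ t : ℂ) * Complex.I)) = ((-Θ t : ℝ) : ℂ) * Complex.I := by push_cast; ring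
    rw [this, norm_e, mul_one]
  rw [← h2, h1, Complex.norm_real, Real.norm_of_nonneg hR0.le]

end Pool.Agent.P8H65.EV
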