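import Pool.Agent.P8H65.EV.Width
import Pool.Agent.P8H65.EV.Flat
import Pool.Agent.P8H69.SV.Fin

/-!
# Project EV (helper8): package PAIR
-/

set_option autoImplicit false

open MeasureTheory Set Filter Metric
open scoped Topology ContDiff ComplexConjugate

namespace Pool.Agent.P8H65.EV

open Pool.Agent.P8H8.SV Pool.Agent.P8H8.EV

/-- between a point with `G > 0` and a later point with `G < 0` there is a point with `G' < 0` -/
theorem cross_neg (G G' : ℝ → ℝ) (P : ℝ → Prop) (hG : Continuous G)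
    (hd : ∀ t, P t → HasDerivAt G (G' t) t) (hP : ∀ t0 : ℝ, ∀ᶠ t in 𝓝[≠] t0, P t) {a b : ℝ}
    (hab : a < b) (ha : 0 < G a) (hb : G b < 0) : ∃ ξ ∈ Ioo a b, P ξ ∧ G' ξ < 0 := by
  set S : Set ℝ := Icc a b ∩ {t | G t ≤ 0} with hS
  have hSc : IsCompact S := isCompact_Icc.inter_right (isClosed_le hG continuous_const)
  have hSn : S.Nonempty := ⟨b, ⟨hab.le, le_rfl⟩, hb.le⟩
  have h1 : sInf S ∈ S := hSc.sInf_mem hSn
  set t1 := sInf S with ht1
  have hat : a < t1 := by
    rcases eq_or_lt_of_le h1.1.1 with h | h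
    · exfalso
      have h2 : G t1 ≤ 0 := h1.2
      rw [← h] at h2
      linarith
    · exact h
  have hlt : ∀ t, a ≤ t → t < t1 → 0 < G t := by
    intro t h2 h3
    by_contra h4
    have h5 : t ∈ S := ⟨⟨h2, h3.le.trans h1.1.2⟩, not_lt.1 h4⟩
    exact absurd (csInf_le hSc.bddBelow h5) (not_le.2 h3)
  have h2 := hP t1
  rw [eventually_nhdsWithin_iff, Metric.eventually_nhds_iff_ball] at h2
  obtain ⟨ε, hε, h3⟩ := h2
  set t2 := max a (t1 - ε / 2) with ht2
  have h21 : t2 < t1 := max_lt hat (by linarith)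
  obtain ⟨ξ, hξ, h4⟩ := exists_hasDerivAt_eq_slope G G' h21 hG.continuousOn (fun x hx => by
    refine hd x (h3 x ?_ hx.2.ne)
    rw [Real.ball_eq_Ioo]
    exact ⟨by linarith [le_max_right a (t1 - ε / 2), hx.1], by linarith [hx.2]⟩)
  refine ⟨ξ, ⟨(le_max_left _ _).trans_lt hξ.1, hξ.2.trans_le h1.1.2⟩, ?_, ?_⟩
  · refine h3 ξ ?_ hξ.2.ne
    rw [Real.ball_eq_Ioo]
    exact ⟨by linarith [le_max_right a (t1 - ε / 2), hξ.1], by linarith [hξ.2]⟩
  · rw [h4]
    have h5 := hlt t2 (le_max_left _ _) h21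
    have h6 : G t1 ≤ 0 := h1.2
    exact div_neg_of_neg_of_pos (by linarith) (by linarith)

theorem cross_pos (G G' : ℝ → ℝ) (P : ℝ → Prop) (hG : Continuous G)
    (hd : ∀ t, P t → HasDerivAt G (G' t) t) (hP : ∀ t0 : ℝ, ∀ᶠ t in 𝓝[≠] t0, P t) {a b : ℝ}
    (hab : a < b) (ha : G a < 0) (hb : 0 < G b) : ∃ ξ ∈ Ioo a b, P ξ ∧ 0 < G' ξ := by
  obtain ⟨ξ, h1, h2, h3⟩ := cross_neg (fun t => -G t) (fun t => -G' t) P hG.neg
    (fun t ht => (hd t ht).neg) hP hab (by linarith) (by linarith)
  exact ⟨ξ, h1, h2, by linarith⟩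

/-- the derivative of the inverse of a function -/
theorem inv_der {F F' ψ : ℝ → ℝ} (hF : ∀ t, HasDerivAt F (F' t) t) (hψ : Continuous ψ)
    (h1 : ∀ x, F (ψ x) = x) {y : ℝ} (hne : F' (ψ y) ≠ 0) : HasDerivAt ψ (F' (ψ y))⁻¹ y :=
  HasDerivAt.of_local_left_inverse hψ.continuousAt (hF (ψ y)) hne (Eventually.of_forall h1)

/-- alternating signs of `K` between alternating signs of `G` -/
theorem alt_of_alt {n : ℕ} (hn : 1 ≤ n) {G K : ℝ → ℝ} (hGp : ∀ t, G (t + 2 * Real.pi) = G t)
    (hKp : ∀ t, K (t + 2 * Real.pi) = K t)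
    (h1 : ∀ a b : ℝ, a < b → 0 < G a → G b < 0 → ∃ ξ ∈ Ioo a b, K ξ < 0)
    (h2 : ∀ a b : ℝ, a < b → G a < 0 → 0 < G b → ∃ ξ ∈ Ioo a b, 0 < K ξ)
    (hG : AltSigns n G) : AltSigns n K := by
  obtain ⟨p, hp1, hp2, hp3⟩ := hG
  have hsign : ∀ i ≤ 2 * n, 0 < (-1) ^ i * G (p i) := by
    intro i hi
    rcases hi.lt_or_eq with h | h
    · exact hp3 i h
    · rw [h, hp2, hGp]
      have := hp3 0 (by omega)
      simpa using this
  have hex : ∀ i < 2 * n, ∃ ξ ∈ Ioo (p i) (p (i + 1)), (-1) ^ i * K ξ < 0 := by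
    intro i hi
    have ha := hsign i hi.le
    have hb := hsign (i + 1) hi
    rcases Nat.even_or_odd i with he | ho
    · rw [he.neg_one_pow, one_mul] at ha
      rw [he.add_one.neg_one_pow] at hb
      obtain ⟨ξ, h3, h4⟩ := h1 _ _ (hp1 i hi) ha (by linarith)
      exact ⟨ξ, h3, by rw [he.neg_one_pow, one_mul]; exact h4⟩
    · rw [ho.neg_one_pow] at ha
      rw [ho.add_one.neg_one_pow, one_mul] at hb
      obtain ⟨ξ, h3, h4⟩ := h2 _ _ (hp1 i hi) (by linarith) hb
      exact ⟨ξ, h3, by rw [ho.neg_one_pow]; linarith⟩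
  choose! c hc1 hc2 using hex
  refine ⟨fun i => if i + 1 < 2 * n then c (i + 1) else c (i + 1 - 2 * n) + 2 * Real.pi, ?_, ?_, ?_⟩
  · intro i hi
    dsimp only
    by_cases h3 : i + 1 + 1 < 2 * n
    · rw [if_pos h3, if_pos (by omega)]
      exact (hc1 (i + 1) (by omega)).2.trans (hc1 (i + 1 + 1) h3).1
    · rw [if_neg h3]
      by_cases h4 : i + 1 < 2 * n
      · have h5 : i + 1 + 1 - 2 * n = 0 := by omega
        rw [if_pos h4, h5]
        have h6 := (hc1 (i + 1) h4).2
        have h7 : i + 1 + 1 = 2 * n := by omega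
        rw [h7, hp2] at h6
        linarith [(hc1 0 (by omega)).1]
      · have h5 : i + 1 + 1 - 2 * n = 1 := by omega
        have h6 : i + 1 - 2 * n = 0 := by omega
        rw [if_neg h4, h5, h6]
        have h7 := (hc1 0 (by omega)).2
        have h8 := (hc1 1 (by omega)).1
        rw [zero_add] at h7
        linarith
  · dsimp only
    have h5 : 2 * n + 1 - 2 * n = 1 := by omega
    rw [if_neg (by omega), h5]
    by_cases h6 : 0 + 1 < 2 * n
    · rw [if_pos h6]
    · omega
  · intro i hi
    dsimp only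
    by_cases h4 : i + 1 < 2 * n
    · rw [if_pos h4]
      have := hc2 (i + 1) h4
      rw [pow_succ] at this
      linarith
    · have h6 : i + 1 - 2 * n = 0 := by omega
      rw [if_neg h4, h6, hKp]
      have h7 := hc2 0 (by omega)
      rw [pow_zero, one_mul] at h7
      have h8 : Odd i := ⟨n - 1, by omega⟩
      rw [h8.neg_one_pow]
      linarith

section curve

variable {φ : ℂ → ℂ} {r : ℝ} {Θ : ℝ → ℝ}

theorem curv_eq (hA : Ang φ Θ) (t : ℝ) : curv φ t = deriv Θ t / ‖N φ t‖ := by
  unfold curv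
  rw [hA.der, norm_N]

theorem curv_per (t : ℝ) : curv φ (t + 2 * Real.pi) = curv φ t := by
  unfold curv
  rw [e_per]

/-- the length of the boundary arc -/
noncomputable def ss (φ : ℂ → ℂ) (t : ℝ) : ℝ := ∫ x in (0 : ℝ)..t, ‖N φ x‖

theorem ss_der (h : Dom φ r) (t : ℝ) : HasDerivAt (ss φ) ‖N φ t‖ t :=
  ((cont_σ h).integral_hasStrictDerivAt 0 t).hasDerivAt

theorem ss_cont (h : Dom φ r) : Continuous (ss φ) :=
  continuous_iff_continuousAt.2 fun t => (ss_der h t).continuousAt

theorem ss_mono (h : Dom φ r) : StrictMono (ss φ) :=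
  strictMono_of_hasDerivAt_pos (ss_der h) fun t => h.N_pos t

theorem ss_zero : ss φ 0 = 0 := by
  unfold ss
  rw [intervalIntegral.integral_same]

theorem ss_per (h : Dom φ r) (t : ℝ) : ss φ (t + 2 * Real.pi) = ss φ t + ss φ (2 * Real.pi) := by
  unfold ss
  have hper : Function.Periodic (fun x => ‖N φ x‖) (2 * Real.pi) := fun x => by
    simp only [N_per]
  have h1 := hper.intervalIntegral_add_eq t 0
  rw [zero_add] at h1
  rw [← h1, intervalIntegral.integral_add_adjacent_intervals]
  · exact (cont_σ h).intervalIntegrable _ _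
  · exact (cont_σ h).intervalIntegrable _ _

theorem ss_pos (h : Dom φ r) : 0 < ss φ (2 * Real.pi) := by
  have := ss_mono h Real.two_pi_pos
  rwa [ss_zero] at this

end curve

theorem sum_zero {x y e : ℂ} {a b : ℝ} (hb : b ≠ 0) (hx : x = b * -e) (hy : y = a * e) :
    (a / b) • (Complex.I * x) + Complex.I * y = 0 := by
  have hb' : (b : ℂ) ≠ 0 := by exact_mod_cast hb
  rw [hx, hy, Complex.real_smul]
  push_cast
  field_simp
  ring

theorem t_PAIR : S_PAIR := by
  intro φ r Θ τ m h hA hd hm hτc hτm hτ hττ hodd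
  have hπ : (0 : ℝ) < Real.pi := Real.pi_pos
  set L := ss φ (2 * Real.pi) with hL
  have hL0 : 0 < L := ss_pos h
  have hΘd : ∀ t, HasDerivAt Θ (deriv Θ t) t := fun t =>
    (hA.sm.differentiable (by simp) t).hasDerivAt
  have hΘc : Continuous Θ := hA.sm.continuous
  have hdc := cont_dΘ hA
  have hσc := cont_σ h
  have hsc := ss_cont h
  have hτp : ∀ t, τ (t + 2 * Real.pi) = τ t + 2 * Real.pi := by
    intro t
    apply hm.injective
    rw [hτ, hA.per, hA.per, hτ]
    ring
  set f : ℝ → ℝ := fun t => ss φ t - L / (2 * Real.pi) * Θ t with hf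
  have hfc : Continuous f := by fun_prop
  have hfp : ∀ t, f (t + 2 * Real.pi) = f t := by
    intro t
    simp only [hf]
    rw [ss_per h, hA.per, ← hL]
    field_simp
    ring
  have hfd : ∀ t, HasDerivAt f (‖N φ t‖ - L / (2 * Real.pi) * deriv Θ t) t := fun t =>
    (ss_der h t).sub ((hΘd t).const_mul _)
  set G : ℝ → ℝ := fun t => f t - f (τ t) with hG
  have hGc : Continuous G := by fun_prop
  have hGp : ∀ t, G (t + 2 * Real.pi) = G t := by
    intro t
    simp only [hG]
    rw [hτp, hfp, hfp]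
  have hGo : ∀ t, G (τ t) = -G t := by
    intro t
    simp only [hG]
    rw [hττ, hfp]
    ring
  have hGe : ∀ t, G t = ss φ t - ss φ (τ t) + L / 2 := by
    intro t
    simp only [hG, hf]
    rw [hτ]
    field_simp
    ring
  -- the odd harmonics of `f`
  have hfodd : ∀ j ≤ m, NoH Θ f (2 * j + 1) := by
    intro j hj
    set k : ℕ := 2 * j + 1 with hk
    have hk1 : 1 ≤ k := by omega
    have hk0 : (k : ℝ) ≠ 0 := by positivity
    have hcos0 := int_cos hA hk1
    have hsin0 := int_sin hA hk1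
    obtain ⟨hc, hs⟩ := hodd j hj
    have hcosd : ∀ t, HasDerivAt (fun t => Real.cos (k * Θ t))
        (-Real.sin (k * Θ t) * (k * deriv Θ t)) t := fun t => ((hΘd t).const_mul (k : ℝ)).cos
    have hsind : ∀ t, HasDerivAt (fun t => Real.sin (k * Θ t))
        (Real.cos (k * Θ t) * (k * deriv Θ t)) t := fun t => ((hΘd t).const_mul (k : ℝ)).sin
    have hΘp := hA.per 0
    have hfp0 := hfp 0
    rw [zero_add] at hΘp hfp0
    constructor
    · have key : ∫ t in (0 : ℝ)..2 * Real.pi, (k * (f t * Real.cos (k * Θ t) * deriv Θ t) +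
          (‖N φ t‖ * Real.sin (k * Θ t) -
            L / (2 * Real.pi) * (Real.sin (k * Θ t) * deriv Θ t))) = 0 := by
        rw [intervalIntegral.integral_eq_sub_of_hasDerivAt (f := fun t => f t * Real.sin (k * Θ t))]
        · rw [hΘp, hfp0, sin_nat_add, sub_self]
        · intro t _
          refine ((hfd t).mul (hsind t)).congr_deriv ?_
          ring
        · exact Continuous.intervalIntegrable (by fun_prop) _ _
      rw [intervalIntegral.integral_add, intervalIntegral.integral_const_mul,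
        intervalIntegral.integral_sub, intervalIntegral.integral_const_mul, hsin0, hs, mul_zero,
        sub_zero, add_zero] at key
      · exact (mul_eq_zero.1 key).resolve_left hk0
      · exact Continuous.intervalIntegrable (by fun_prop) _ _
      · exact Continuous.intervalIntegrable (by fun_prop) _ _
      · exact Continuous.intervalIntegrable (by fun_prop) _ _
      · exact Continuous.intervalIntegrable (by fun_prop) _ _
    · have key : ∫ t in (0 : ℝ)..2 * Real.pi, (k * (f t * Real.sin (k * Θ t) * deriv Θ t) -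
          (‖N φ t‖ * Real.cos (k * Θ t) -
            L / (2 * Real.pi) * (Real.cos (k * Θ t) * deriv Θ t))) = 0 := by
        rw [intervalIntegral.integral_eq_sub_of_hasDerivAt
          (f := fun t => -(f t * Real.cos (k * Θ t)))]
        · rw [hΘp, hfp0, cos_nat_add, sub_self]
        · intro t _
          refine ((hfd t).mul (hcosd t)).neg.congr_deriv ?_
          ring
        · exact Continuous.intervalIntegrable (by fun_prop) _ _
      rw [intervalIntegral.integral_sub, intervalIntegral.integral_const_mul,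
        intervalIntegral.integral_sub, intervalIntegral.integral_const_mul, hcos0, hc, mul_zero,
        sub_zero, sub_zero] at key
      · exact (mul_eq_zero.1 key).resolve_left hk0
      · exact Continuous.intervalIntegrable (by fun_prop) _ _
      · exact Continuous.intervalIntegrable (by fun_prop) _ _
      · exact Continuous.intervalIntegrable (by fun_prop) _ _
      · exact Continuous.intervalIntegrable (by fun_prop) _ _
  have hfτ : Continuous fun t => f (τ t) := hfc.comp hτc
  have hGh : ∀ k ≤ 2 * m + 2, NoH Θ G k := by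
    intro k hk
    rcases Nat.even_or_odd k with hev | hod
    · exact noH_even hA hm hτc hτ hGc hGp hGo hev
    · have hod' := hod
      obtain ⟨j, rfl⟩ := hod'
      have h1 := hfodd j (by omega)
      have h2 := t_CHG Θ τ f (2 * j + 1) (hA.sm.of_le (by simp)) hm hA.per hτc hτ hfc hfp
      rw [h1.1, h1.2, mul_zero] at h2
      constructor
      · have e : ∀ t, G t * Real.cos ((2 * j + 1 : ℕ) * Θ t) * deriv Θ t =
            f t * Real.cos ((2 * j + 1 : ℕ) * Θ t) * deriv Θ t -
              f (τ t) * Real.cos ((2 * j + 1 : ℕ) * Θ t) * deriv Θ t := fun t => by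
          simp only [hG]; ring
        simp only [e]
        rw [intervalIntegral.integral_sub, h1.1, h2.1, sub_zero]
        · exact Continuous.intervalIntegrable (by fun_prop) _ _
        · exact Continuous.intervalIntegrable (by fun_prop) _ _
      · have e : ∀ t, G t * Real.sin ((2 * j + 1 : ℕ) * Θ t) * deriv Θ t =
            f t * Real.sin ((2 * j + 1 : ℕ) * Θ t) * deriv Θ t -
              f (τ t) * Real.sin ((2 * j + 1 : ℕ) * Θ t) * deriv Θ t := fun t => by
          simp only [hG]; ring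
        simp only [e]
        rw [intervalIntegral.integral_sub, h1.2, h2.2, sub_zero]
        · exact Continuous.intervalIntegrable (by fun_prop) _ _
        · exact Continuous.intervalIntegrable (by fun_prop) _ _
  rcases Pool.Agent.P8H69.SV.t_STURM (2 * m + 2) G Θ (by omega) hGc hGp (hA.sm.of_le (by simp))
    hA.per hd hm (fun k hk => (hGh k hk).1) (fun k hk => (hGh k hk).2) with hAlt | h0
  · right
    obtain ⟨ψ, hψc, -, hψ1, hψ2, -⟩ := inv_ex hΘc hm hA.per
    have hτψ : ∀ t, τ t = ψ (Θ t + Real.pi) := fun t => by rw [← hτ, hψ2]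
    have hτd : ∀ t, deriv Θ (τ t) ≠ 0 → HasDerivAt τ (deriv Θ t / deriv Θ (τ t)) t := by
      intro t ht
      rw [hτψ] at ht
      have h1 := inv_der hΘd hψc hψ1 ht
      have h2 := h1.comp t ((hΘd t).add_const Real.pi)
      rw [← hτψ] at h2
      have h3 : (ψ ∘ fun x => Θ x + Real.pi) = τ := by
        funext x
        exact (hτψ x).symm
      rw [h3] at h2
      refine h2.congr_deriv ?_
      rw [div_eq_inv_mul]
    have hP : ∀ t0 : ℝ, ∀ᶠ t in 𝓝[≠] t0, deriv Θ (τ t) ≠ 0 := by
      intro t0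
      have h1 : Tendsto τ (𝓝[≠] t0) (𝓝[≠] (τ t0)) := by
        refine tendsto_nhdsWithin_of_tendsto_nhds_of_eventually_within _
          (hτc.continuousAt.mono_left nhdsWithin_le_nhds) ?_
        filter_upwards [self_mem_nhdsWithin] with t ht
        exact fun h2 => ht (hτm.injective h2)
      exact h1.eventually (t_FLAT φ r Θ h hA hm (τ t0))
    have hGd : ∀ t, deriv Θ (τ t) ≠ 0 → HasDerivAt G
        (‖N φ t‖ - ‖N φ (τ t)‖ * (deriv Θ t / deriv Θ (τ t))) t := by
      intro t ht
      have h1 := ((ss_der h t).sub ((ss_der h (τ t)).comp t (hτd t ht))).add_const (L / 2)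
      have h2 : G = fun t => ss φ t - ss φ (τ t) + L / 2 := funext hGe
      rw [h2]
      exact h1
    have hkey : ∀ t, deriv Θ (τ t) ≠ 0 → 0 < deriv Θ (τ t) := fun t ht =>
      lt_of_le_of_ne (hd _) (Ne.symm ht)
    refine alt_of_alt (by omega) hGp (fun t => ?_) ?_ ?_ hAlt
    · rw [hτp, curv_per, curv_per]
    · intro a b hab ha hb
      obtain ⟨ξ, h1, h2, h3⟩ := cross_neg G _ _ hGc hGd hP hab ha hb
      refine ⟨ξ, h1, ?_⟩
      have h4 := hkey ξ h2
      have h5 := h.N_pos ξ
      have h6 := h.N_pos (τ ξ)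
      rw [curv_eq hA, curv_eq hA, sub_neg, div_lt_div_iff₀ h6 h5]
      rw [mul_div_assoc', sub_neg, lt_div_iff₀ h4] at h3
      linarith
    · intro a b hab ha hb
      obtain ⟨ξ, h1, h2, h3⟩ := cross_pos G _ _ hGc hGd hP hab ha hb
      refine ⟨ξ, h1, ?_⟩
      have h4 := hkey ξ h2
      have h5 := h.N_pos ξ
      have h6 := h.N_pos (τ ξ)
      rw [curv_eq hA, curv_eq hA, sub_pos, div_lt_div_iff₀ h5 h6]
      rw [mul_div_assoc', sub_pos, div_lt_iff₀ h4] at h3
      linarith
  · left
    have hsτ : ∀ t, ss φ (τ t) = ss φ t + L / 2 := by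
      intro t
      have := h0 t
      rw [hGe] at this
      linarith
    -- the normalised length
    set q : ℝ → ℝ := fun t => 2 * Real.pi / L * ss φ t with hq
    have hqd : ∀ t, HasDerivAt q (2 * Real.pi / L * ‖N φ t‖) t := fun t =>
      (ss_der h t).const_mul _
    have hqc : Continuous q := by fun_prop
    have hq0 : 0 < 2 * Real.pi / L := by positivity
    have hqm : StrictMono q := fun a b hab => mul_lt_mul_of_pos_left (ss_mono h hab) hq0
    have hqp : ∀ t, q (t + 2 * Real.pi) = q t + 2 * Real.pi := by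
      intro t
      simp only [hq]
      rw [ss_per h, ← hL]
      field_simp
    obtain ⟨ψ, hψc, -, hψ1, hψ2, -⟩ := inv_ex hqc hqm hqp
    have hqτ : ∀ t, q (τ t) = q t + Real.pi := by
      intro t
      simp only [hq]
      rw [hsτ]
      field_simp
    have hτψ : ∀ t, τ t = ψ (q t + Real.pi) := fun t => by rw [← hqτ, hψ2]
    have hτd : ∀ t, HasDerivAt τ (‖N φ t‖ / ‖N φ (τ t)‖) t := by
      intro t
      have h6 := h.N_pos (τ t)
      have hne : 2 * Real.pi / L * ‖N φ (ψ (q t + Real.pi))‖ ≠ 0 := by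
        rw [← hτψ]; positivity
      have h1 := inv_der hqd hψc hψ1 hne
      have h2 := h1.comp t ((hqd t).add_const Real.pi)
      rw [← hτψ] at h2
      have h3 : (ψ ∘ fun x => q x + Real.pi) = τ := by
        funext x
        exact (hτψ x).symm
      rw [h3] at h2
      refine h2.congr_deriv ?_
      field_simp
    have hsum : ∀ t, HasDerivAt (fun t => γ φ (τ t) + γ φ t) 0 t := by
      intro t
      have h1 := (h.hasDerivAt_γ (τ t)).scomp t (hτd t)
      have h2 := h1.add (h.hasDerivAt_γ t)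
      refine h2.congr_deriv ?_
      have e1 : Complex.exp ((Θ (τ t) : ℂ) * Complex.I) = -Complex.exp (Θ t * Complex.I) := by
        rw [hτ]
        push_cast
        rw [add_mul, Complex.exp_add, Complex.exp_pi_mul_I]
        ring
      have e2 := hA.eq (τ t)
      rw [e1] at e2
      exact sum_zero (h.N_pos (τ t)).ne' e2 (hA.eq t)
    have hconst : ∀ t, γ φ (τ t) + γ φ t = γ φ (τ 0) + γ φ 0 := by
      intro t
      exact is_const_of_deriv_eq_zero (fun x => (hsum x).differentiableAt)
        (fun x => (hsum x).deriv) t 0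
    exact ⟨_, hconst⟩

end Pool.Agent.P8H65.EV
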