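import Pool.Agent.P8H8.EV.Stm

/-!
# Project EV (helper8): packages TAU, CHG, HSUP
-/

set_option autoImplicit false

open MeasureTheory Set Filter Metric
open scoped Topology ContDiff ComplexConjugate

namespace Pool.Agent.P8H65.EV

open Pool.Agent.P8H8.SV Pool.Agent.P8H8.EV

section angle

variable {Θ : ℝ → ℝ}

theorem add_nat (hp : ∀ t, Θ (t + 2 * Real.pi) = Θ t + 2 * Real.pi) (n : ℕ) (t : ℝ) :
    Θ (t + n * (2 * Real.pi)) = Θ t + n * (2 * Real.pi) := by
  induction n with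
  | zero => simp
  | succ n ih =>
    have e : t + ((n + 1 : ℕ) : ℝ) * (2 * Real.pi) = (t + n * (2 * Real.pi)) + 2 * Real.pi := by
      push_cast; ring
    rw [e, hp, ih]
    push_cast; ring

theorem sub_nat (hp : ∀ t, Θ (t + 2 * Real.pi) = Θ t + 2 * Real.pi) (n : ℕ) (t : ℝ) :
    Θ (t - n * (2 * Real.pi)) = Θ t - n * (2 * Real.pi) := by
  have := add_nat hp n (t - n * (2 * Real.pi))
  rw [sub_add_cancel] at this
  linarith

theorem surj (hc : Continuous Θ) (hm : StrictMono Θ)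
    (hp : ∀ t, Θ (t + 2 * Real.pi) = Θ t + 2 * Real.pi) : Function.Surjective Θ := by
  have h2 : (0 : ℝ) < 2 * Real.pi := Real.two_pi_pos
  refine hc.surjective ?_ ?_
  · refine tendsto_atTop_atTop_of_monotone hm.monotone fun b => ?_
    obtain ⟨n, hn⟩ := exists_nat_ge ((b - Θ 0) / (2 * Real.pi))
    refine ⟨0 + n * (2 * Real.pi), ?_⟩
    rw [add_nat hp]
    rw [div_le_iff₀ h2] at hn
    linarith
  · refine tendsto_atBot_atBot_of_monotone hm.monotone fun b => ?_
    obtain ⟨n, hn⟩ := exists_nat_ge ((Θ 0 - b) / (2 * Real.pi))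
    refine ⟨0 - n * (2 * Real.pi), ?_⟩
    rw [sub_nat hp]
    rw [div_le_iff₀ h2] at hn
    linarith

/-- the continuous inverse of the angle function -/
theorem inv_ex (hc : Continuous Θ) (hm : StrictMono Θ)
    (hp : ∀ t, Θ (t + 2 * Real.pi) = Θ t + 2 * Real.pi) :
    ∃ ψ : ℝ → ℝ, Continuous ψ ∧ StrictMono ψ ∧ (∀ x, Θ (ψ x) = x) ∧ (∀ t, ψ (Θ t) = t) ∧
      ∀ x, ψ (x + 2 * Real.pi) = ψ x + 2 * Real.pi := by
  let e := hm.orderIsoOfSurjective Θ (surj hc hm hp)
  have he : ∀ t, e t = Θ t := fun t => rfl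
  have h1 : ∀ x, Θ (e.symm x) = x := fun x => e.apply_symm_apply x
  have h2 : ∀ t, e.symm (Θ t) = t := fun t => e.symm_apply_apply t
  refine ⟨e.symm, e.symm.continuous, e.symm.strictMono, h1, h2, fun x => ?_⟩
  apply hm.injective
  rw [h1, hp, h1]

end angle

theorem t_TAU : S_TAU := by
  intro Θ hc hm hp
  obtain ⟨ψ, hψc, hψm, h1, h2, h3⟩ := inv_ex hc hm hp
  have hτ : ∀ t, Θ (ψ (Θ t + Real.pi)) = Θ t + Real.pi := fun t => h1 _
  refine ⟨fun t => ψ (Θ t + Real.pi), hψc.comp (hc.add continuous_const), ?_, hτ, ?_, ?_⟩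
  · intro s t hst
    exact hψm (by linarith [hm hst])
  · intro t
    apply hm.injective
    rw [h1, h1, hp]
    ring
  · intro t
    apply hm.injective
    rw [h1, hp, hp, h1]
    ring

/-- substitution of the angle -/
theorem subst_angle (Θ F : ℝ → ℝ) (c : ℝ) (hΘ : ContDiff ℝ 1 Θ)
    (hp : ∀ t, Θ (t + 2 * Real.pi) = Θ t + 2 * Real.pi) (hF : Continuous F)
    (hFp : ∀ x, F (x + 2 * Real.pi) = F x) :
    ∫ t in (0 : ℝ)..2 * Real.pi, F (Θ t + c) * deriv Θ t = ∫ x in (0 : ℝ)..2 * Real.pi, F x := by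
  have h1 := intervalIntegral.integral_comp_mul_deriv (a := (0 : ℝ)) (b := 2 * Real.pi)
    (f := fun t => Θ t + c) (f' := deriv Θ) (g := F)
    (fun x _ => ((hΘ.differentiable (by simp) x).hasDerivAt).add_const c)
    ((hΘ.continuous_deriv le_rfl).continuousOn) hF
  have h2 : ∫ t in (0 : ℝ)..2 * Real.pi, F (Θ t + c) * deriv Θ t =
      ∫ x in (Θ 0 + c)..(Θ (2 * Real.pi) + c), F x := h1
  rw [h2]
  have h3 : Θ (2 * Real.pi) + c = (Θ 0 + c) + 2 * Real.pi := by
    have := hp 0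
    rw [zero_add] at this
    rw [this]; ring
  have hper : Function.Periodic F (2 * Real.pi) := hFp
  rw [h3, hper.intervalIntegral_add_eq (Θ 0 + c) 0, zero_add]

theorem cos_nat_add (k : ℕ) (x : ℝ) : Real.cos (k * (x + 2 * Real.pi)) = Real.cos (k * x) := by
  rw [mul_add, Real.cos_add_nat_mul_two_pi]

theorem sin_nat_add (k : ℕ) (x : ℝ) : Real.sin (k * (x + 2 * Real.pi)) = Real.sin (k * x) := by
  rw [mul_add, Real.sin_add_nat_mul_two_pi]

theorem cos_nat_pi (k : ℕ) (x : ℝ) : Real.cos (k * x) = (-1) ^ k * Real.cos (k * (x + Real.pi)) := by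
  rw [mul_add, Real.cos_add_nat_mul_pi, ← mul_assoc, ← mul_pow]
  simp

theorem sin_nat_pi (k : ℕ) (x : ℝ) : Real.sin (k * x) = (-1) ^ k * Real.sin (k * (x + Real.pi)) := by
  rw [mul_add, Real.sin_add_nat_mul_pi, ← mul_assoc, ← mul_pow]
  simp

theorem t_CHG : S_CHG := by
  intro Θ τ f k hΘ hm hp hτc hτ hf hfp
  obtain ⟨ψ, hψc, hψm, h1, h2, h3⟩ := inv_ex hΘ.continuous hm hp
  have hτψ : ∀ t, τ t = ψ (Θ t + Real.pi) := fun t => by rw [← hτ, h2]
  constructor
  · set F : ℝ → ℝ := fun x => f (ψ x) * Real.cos (k * x) with hF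
    have hFc : Continuous F := by fun_prop
    have hFp : ∀ x, F (x + 2 * Real.pi) = F x := fun x => by
      simp only [hF]
      rw [h3, hfp, cos_nat_add]
    have e1 : ∀ t, f (τ t) * Real.cos (k * Θ t) * deriv Θ t =
        (-1) ^ k * (F (Θ t + Real.pi) * deriv Θ t) := fun t => by
      simp only [hF]
      rw [hτψ, cos_nat_pi k (Θ t)]
      ring
    have e2 : ∀ t, f t * Real.cos (k * Θ t) * deriv Θ t = F (Θ t + 0) * deriv Θ t := fun t => by
      simp only [hF, add_zero]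
      rw [h2]
    simp only [e1, e2]
    rw [intervalIntegral.integral_const_mul, subst_angle Θ F _ hΘ hp hFc hFp,
      subst_angle Θ F _ hΘ hp hFc hFp]
  · set F : ℝ → ℝ := fun x => f (ψ x) * Real.sin (k * x) with hF
    have hFc : Continuous F := by fun_prop
    have hFp : ∀ x, F (x + 2 * Real.pi) = F x := fun x => by
      simp only [hF]
      rw [h3, hfp, sin_nat_add]
    have e1 : ∀ t, f (τ t) * Real.sin (k * Θ t) * deriv Θ t =
        (-1) ^ k * (F (Θ t + Real.pi) * deriv Θ t) := fun t => by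
      simp only [hF]
      rw [hτψ, sin_nat_pi k (Θ t)]
      ring
    have e2 : ∀ t, f t * Real.sin (k * Θ t) * deriv Θ t = F (Θ t + 0) * deriv Θ t := fun t => by
      simp only [hF, add_zero]
      rw [h2]
    simp only [e1, e2]
    rw [intervalIntegral.integral_const_mul, subst_angle Θ F _ hΘ hp hFc hFp,
      subst_angle Θ F _ hΘ hp hFc hFp]

/-! ## The support function -/

/-- `(γ - a) exp (-iΘ)` -/
noncomputable def zz (φ : ℂ → ℂ) (Θ : ℝ → ℝ) (a : ℂ) (t : ℝ) : ℂ :=
  (γ φ t - a) * Complex.exp (-(Θ t * Complex.I))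

section support

variable {φ : ℂ → ℂ} {r : ℝ} {Θ : ℝ → ℝ}

theorem zz_re (a : ℂ) (t : ℝ) : (zz φ Θ a t).re = hs φ Θ a t := rfl

theorem zz_der (h : Dom φ r) (hA : Ang φ Θ) (a : ℂ) (t : ℝ) :
    HasDerivAt (zz φ Θ a) (Complex.I * ‖N φ t‖ - Complex.I * ((deriv Θ t : ℝ) : ℂ) *
        zz φ Θ a t) t := hasDerivAt_z h hA a t

theorem re_der (h : Dom φ r) (hA : Ang φ Θ) (a : ℂ) (t : ℝ) :
    HasDerivAt (fun t => (zz φ Θ a t).re) ((zz φ Θ a t).im * deriv Θ t) t := by
  have h1 := (zz_der h hA a t)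
  have h2 := (Complex.reCLM.hasFDerivAt (x := zz φ Θ a t)).comp_hasDerivAt t h1
  refine (h2.congr_deriv ?_)
  simp [Complex.mul_re, Complex.mul_im]
  ring

theorem im_der (h : Dom φ r) (hA : Ang φ Θ) (a : ℂ) (t : ℝ) :
    HasDerivAt (fun t => (zz φ Θ a t).im) (‖N φ t‖ - (zz φ Θ a t).re * deriv Θ t) t := by
  have h1 := (zz_der h hA a t)
  have h2 := (Complex.imCLM.hasFDerivAt (x := zz φ Θ a t)).comp_hasDerivAt t h1
  refine (h2.congr_deriv ?_)
  simp [Complex.mul_re, Complex.mul_im]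
  ring

theorem zz_per (hA : Ang φ Θ) (a : ℂ) (t : ℝ) : zz φ Θ a (t + 2 * Real.pi) = zz φ Θ a t := by
  unfold zz
  rw [γ_per, hA.per]
  congr 1
  have : (-(((Θ t + 2 * Real.pi : ℝ) : ℂ) * Complex.I)) = -(Θ t * Complex.I) - 2 * Real.pi * Complex.I := by
    push_cast; ring
  rw [this, Complex.exp_periodic.sub_eq]

theorem contDiff_zz (h : Dom φ r) (hA : Ang φ Θ) (a : ℂ) : ContDiff ℝ ∞ (zz φ Θ a) := by
  unfold zz
  have h1 : ContDiff ℝ ∞ (fun t : ℝ => ((Θ t : ℝ) : ℂ)) := Complex.ofRealCLM.contDiff.comp hA.sm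
  exact (h.contDiff_γ.sub contDiff_const).mul ((h1.mul contDiff_const).neg.cexp)

theorem cont_hs (h : Dom φ r) (hA : Ang φ Θ) (a : ℂ) : Continuous (hs φ Θ a) :=
  Complex.continuous_re.comp (contDiff_zz h hA a).continuous

theorem cont_dΘ (hA : Ang φ Θ) : Continuous (deriv Θ) := hA.sm.continuous_deriv (by simp)

theorem cont_σ (h : Dom φ r) : Continuous (fun t => ‖N φ t‖) := h.contDiff_σ.continuous

end support

theorem t_HSUP : S_HSUP := by
  intro φ r Θ a k h hA
  have hΘd : ∀ t, HasDerivAt Θ (deriv Θ t) t := fun t =>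
    (hA.sm.differentiable (by simp) t).hasDerivAt
  have hΘc : Continuous Θ := hA.sm.continuous
  have hdc := cont_dΘ hA
  have hσc := cont_σ h
  have hhc := cont_hs h hA a
  have hcos : ∀ t, HasDerivAt (fun t => Real.cos (k * Θ t)) (-Real.sin (k * Θ t) * (k * deriv Θ t)) t :=
    fun t => ((hΘd t).const_mul (k : ℝ)).cos
  have hsin : ∀ t, HasDerivAt (fun t => Real.sin (k * Θ t)) (Real.cos (k * Θ t) * (k * deriv Θ t)) t :=
    fun t => ((hΘd t).const_mul (k : ℝ)).sin
  have hzp := zz_per hA a 0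
  rw [zero_add] at hzp
  have hΘp := hA.per 0
  rw [zero_add] at hΘp
  constructor
  · have key : ∫ t in (0 : ℝ)..2 * Real.pi, (‖N φ t‖ * Real.cos (k * Θ t) -
        (1 - (k : ℝ) ^ 2) * (hs φ Θ a t * Real.cos (k * Θ t) * deriv Θ t)) = 0 := by
      have hd : ∀ t ∈ uIcc (0 : ℝ) (2 * Real.pi), HasDerivAt
          (fun t => (zz φ Θ a t).im * Real.cos (k * Θ t) + k * ((zz φ Θ a t).re * Real.sin (k * Θ t)))
          (‖N φ t‖ * Real.cos (k * Θ t) -
        (1 - (k : ℝ) ^ 2) * (hs φ Θ a t * Real.cos (k * Θ t) * deriv Θ t)) t := by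
        intro t _
        have h1 := (im_der h hA a t).mul (hcos t)
        have h2 := ((re_der h hA a t).mul (hsin t)).const_mul (k : ℝ)
        refine (h1.add h2).congr_deriv ?_
        rw [← zz_re]
        ring
      rw [intervalIntegral.integral_eq_sub_of_hasDerivAt hd]
      · rw [hzp, hΘp, cos_nat_add, sin_nat_add]
        ring
      · apply Continuous.intervalIntegrable
        fun_prop
    rw [intervalIntegral.integral_sub, intervalIntegral.integral_const_mul] at key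
    · linarith
    · apply Continuous.intervalIntegrable
      fun_prop
    · apply Continuous.intervalIntegrable
      fun_prop
  · have key : ∫ t in (0 : ℝ)..2 * Real.pi, (‖N φ t‖ * Real.sin (k * Θ t) -
        (1 - (k : ℝ) ^ 2) * (hs φ Θ a t * Real.sin (k * Θ t) * deriv Θ t)) = 0 := by
      have hd : ∀ t ∈ uIcc (0 : ℝ) (2 * Real.pi), HasDerivAt
          (fun t => (zz φ Θ a t).im * Real.sin (k * Θ t) - k * ((zz φ Θ a t).re * Real.cos (k * Θ t)))
          (‖N φ t‖ * Real.sin (k * Θ t) -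
        (1 - (k : ℝ) ^ 2) * (hs φ Θ a t * Real.sin (k * Θ t) * deriv Θ t)) t := by
        intro t _
        have h1 := (im_der h hA a t).mul (hsin t)
        have h2 := ((re_der h hA a t).mul (hcos t)).const_mul (k : ℝ)
        refine (h1.sub h2).congr_deriv ?_
        rw [← zz_re]
        ring
      rw [intervalIntegral.integral_eq_sub_of_hasDerivAt hd]
      · rw [hzp, hΘp, cos_nat_add, sin_nat_add]
        ring
      · apply Continuous.intervalIntegrable
        fun_prop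
    rw [intervalIntegral.integral_sub, intervalIntegral.integral_const_mul] at key
    · linarith
    · apply Continuous.intervalIntegrable
      fun_prop
    · apply Continuous.intervalIntegrable
      fun_prop

end Pool.Agent.P8H65.EV
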