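import Pool.Agent.P8H65.EV.Tau

/-!
# Project EV (helper8): package WIDTH
-/

set_option autoImplicit false

open MeasureTheory Set Filter Metric
open scoped Topology ContDiff ComplexConjugate

namespace Pool.Agent.P8H65.EV

open Pool.Agent.P8H8.SV Pool.Agent.P8H8.EV

theorem exp_opp {x y : ℝ} (h : y = x + Real.pi) :
    Complex.exp (-((y : ℂ) * Complex.I)) = -Complex.exp (-((x : ℂ) * Complex.I)) := by
  have : (-((y : ℂ) * Complex.I)) = -((x : ℂ) * Complex.I) - Real.pi * Complex.I := by
    rw [h]; push_cast; ring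
  rw [this, Complex.exp_sub, Complex.exp_pi_mul_I]
  ring

theorem hs_opp {φ : ℂ → ℂ} {Θ : ℝ → ℝ} (a : ℂ) {s t : ℝ} (h : Θ s = Θ t + Real.pi) :
    hs φ Θ a s + hs φ Θ a t = ((γ φ s - γ φ t) * Complex.exp (-(Θ s * Complex.I))).re := by
  unfold hs
  have e : Complex.exp (-((Θ t : ℂ) * Complex.I)) = -Complex.exp (-((Θ s : ℂ) * Complex.I)) := by
    rw [exp_opp h, neg_neg]
  rw [e, ← Complex.add_re]
  congr 1
  ring

theorem hs_shift (φ : ℂ → ℂ) (Θ : ℝ → ℝ) (x y t : ℝ) :
    hs φ Θ ⟨x, y⟩ t = hs φ Θ 0 t - (x * Real.cos (Θ t) + y * Real.sin (Θ t)) := by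
  unfold hs
  have e : Complex.exp (-((Θ t : ℂ) * Complex.I)) = ⟨Real.cos (Θ t), -Real.sin (Θ t)⟩ := by
    have : (-((Θ t : ℂ) * Complex.I)) = ((-Θ t : ℝ) : ℂ) * Complex.I := by push_cast; ring
    rw [this, Complex.exp_mul_I]
    apply Complex.ext
    · simp [← Complex.ofReal_cos, ← Complex.ofReal_sin, -Complex.ofReal_neg]
    · simp [← Complex.ofReal_cos, ← Complex.ofReal_sin, -Complex.ofReal_neg]
  rw [e]
  simp [Complex.mul_re]
  ring

section ints

variable {φ : ℂ → ℂ} {Θ : ℝ → ℝ}

theorem int_cos_sq (hA : Ang φ Θ) :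
    ∫ t in (0 : ℝ)..2 * Real.pi, Real.cos (Θ t) ^ 2 * deriv Θ t = Real.pi := by
  have h2 := int_cos hA (k := 2) (by norm_num)
  have h1 := int_one hA
  have hc1 : Continuous Θ := hA.sm.continuous
  have hc2 := cont_dΘ hA
  have e : ∀ t, Real.cos (Θ t) ^ 2 * deriv Θ t =
      (1 / 2) * deriv Θ t + (1 / 2) * (Real.cos ((2 : ℕ) * Θ t) * deriv Θ t) := by
    intro t
    rw [Real.cos_sq]
    push_cast
    ring
  simp only [e]
  rw [intervalIntegral.integral_add, intervalIntegral.integral_const_mul,
    intervalIntegral.integral_const_mul, h1, h2]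
  · ring
  · exact Continuous.intervalIntegrable (by fun_prop) _ _
  · exact Continuous.intervalIntegrable (by fun_prop) _ _

theorem int_sin_cos (hA : Ang φ Θ) :
    ∫ t in (0 : ℝ)..2 * Real.pi, Real.sin (Θ t) * Real.cos (Θ t) * deriv Θ t = 0 := by
  have h2 := int_sin hA (k := 2) (by norm_num)
  have e : ∀ t, Real.sin (Θ t) * Real.cos (Θ t) * deriv Θ t =
      (1 / 2) * (Real.sin ((2 : ℕ) * Θ t) * deriv Θ t) := by
    intro t
    push_cast
    rw [Real.sin_two_mul]
    ring
  simp only [e]
  rw [intervalIntegral.integral_const_mul, h2, mul_zero]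

theorem int_sin_sq (hA : Ang φ Θ) :
    ∫ t in (0 : ℝ)..2 * Real.pi, Real.sin (Θ t) ^ 2 * deriv Θ t = Real.pi := by
  have h2 := int_cos_sq hA
  have h1 := int_one hA
  have hc1 : Continuous Θ := hA.sm.continuous
  have hc2 := cont_dΘ hA
  have e : ∀ t, Real.sin (Θ t) ^ 2 * deriv Θ t =
      deriv Θ t - Real.cos (Θ t) ^ 2 * deriv Θ t := by
    intro t
    rw [Real.sin_sq]
    ring
  simp only [e]
  rw [intervalIntegral.integral_sub, h1, h2]
  · ring
  · exact Continuous.intervalIntegrable (by fun_prop) _ _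
  · exact Continuous.intervalIntegrable (by fun_prop) _ _

end ints

/-- a function which changes its sign at the opposite point has no even harmonics -/
theorem noH_even {φ : ℂ → ℂ} {Θ τ f : ℝ → ℝ} (hA : Ang φ Θ) (hm : StrictMono Θ)
    (hτc : Continuous τ) (hτ : ∀ t, Θ (τ t) = Θ t + Real.pi) (hf : Continuous f)
    (hfp : ∀ t, f (t + 2 * Real.pi) = f t) (ho : ∀ t, f (τ t) = -f t) {k : ℕ} (hk : Even k) :
    NoH Θ f k := by
  have h1 := t_CHG Θ τ f k (hA.sm.of_le (by simp)) hm hA.per hτc hτ hf hfp
  rw [hk.neg_one_pow] at h1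
  simp only [ho, one_mul, neg_mul, intervalIntegral.integral_neg] at h1
  exact ⟨by linarith [h1.1], by linarith [h1.2]⟩

theorem t_WIDTH : S_WIDTH := by
  intro φ r Θ m D h hA hd hm hodd hw
  obtain ⟨τ, hτc, hτm, hτ, hττ, hτp⟩ := t_TAU Θ hA.sm.continuous hm hA.per
  have hc1 : Continuous Θ := hA.sm.continuous
  have hc2 := cont_dΘ hA
  set A : ℝ := ∫ t in (0 : ℝ)..2 * Real.pi, hs φ Θ 0 t * Real.cos (Θ t) * deriv Θ t with hAdef
  set B : ℝ := ∫ t in (0 : ℝ)..2 * Real.pi, hs φ Θ 0 t * Real.sin (Θ t) * deriv Θ t with hBdef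
  have hpi : Real.pi ≠ 0 := Real.pi_ne_zero
  refine ⟨⟨A / Real.pi, B / Real.pi⟩, fun k hk => ?_⟩
  set a : ℂ := ⟨A / Real.pi, B / Real.pi⟩ with ha
  have hhc := cont_hs h hA a
  have hh0 := cont_hs h hA 0
  have hper : ∀ t, hs φ Θ a (t + 2 * Real.pi) = hs φ Θ a t := fun t => by
    rw [← zz_re, ← zz_re, zz_per hA]
  rcases Nat.even_or_odd k with hev | hod
  · refine noH_even hA hm hτc hτ (by fun_prop) (fun t => by simp only [hper]) (fun t => ?_) hev
    have h1 := hs_opp (φ := φ) a (hτ t)
    rw [hw _ _ (hτ t)] at h1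
    linarith
  · obtain ⟨j, rfl⟩ := hod
    have hk1 : 1 ≤ 2 * j + 1 := by omega
    have hjm : j ≤ m := by omega
    have hcos0 := int_cos hA hk1
    have hsin0 := int_sin hA hk1
    have hI : (∫ t in (0 : ℝ)..2 * Real.pi, hs φ Θ a t * Real.cos ((2 * j + 1 : ℕ) * Θ t) *
        deriv Θ t = 0) ∧ ∫ t in (0 : ℝ)..2 * Real.pi, hs φ Θ a t *
          Real.sin ((2 * j + 1 : ℕ) * Θ t) * deriv Θ t = 0 := by
      rcases Nat.eq_zero_or_pos j with hj | hj
      · subst hj
        have e1 : ∀ t, hs φ Θ a t * Real.cos ((2 * 0 + 1 : ℕ) * Θ t) * deriv Θ t =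
            hs φ Θ 0 t * Real.cos (Θ t) * deriv Θ t -
              (A / Real.pi * (Real.cos (Θ t) ^ 2 * deriv Θ t) +
                B / Real.pi * (Real.sin (Θ t) * Real.cos (Θ t) * deriv Θ t)) := by
          intro t
          rw [ha, hs_shift]
          push_cast
          ring_nf
        have e2 : ∀ t, hs φ Θ a t * Real.sin ((2 * 0 + 1 : ℕ) * Θ t) * deriv Θ t =
            hs φ Θ 0 t * Real.sin (Θ t) * deriv Θ t -
              (A / Real.pi * (Real.sin (Θ t) * Real.cos (Θ t) * deriv Θ t) +
                B / Real.pi * (Real.sin (Θ t) ^ 2 * deriv Θ t)) := by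
          intro t
          rw [ha, hs_shift]
          push_cast
          ring_nf
        constructor
        · simp only [e1]
          rw [intervalIntegral.integral_sub, intervalIntegral.integral_add,
            intervalIntegral.integral_const_mul, intervalIntegral.integral_const_mul,
            int_cos_sq hA, int_sin_cos hA, ← hAdef]
          · field_simp
            ring
          · exact Continuous.intervalIntegrable (by fun_prop) _ _
          · exact Continuous.intervalIntegrable (by fun_prop) _ _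
          · exact Continuous.intervalIntegrable (by fun_prop) _ _
          · exact Continuous.intervalIntegrable (by fun_prop) _ _
        · simp only [e2]
          rw [intervalIntegral.integral_sub, intervalIntegral.integral_add,
            intervalIntegral.integral_const_mul, intervalIntegral.integral_const_mul,
            int_sin_sq hA, int_sin_cos hA, ← hBdef]
          · field_simp
            ring
          · exact Continuous.intervalIntegrable (by fun_prop) _ _
          · exact Continuous.intervalIntegrable (by fun_prop) _ _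
          · exact Continuous.intervalIntegrable (by fun_prop) _ _
          · exact Continuous.intervalIntegrable (by fun_prop) _ _
      · have h1 := t_HSUP φ r Θ a (2 * j + 1) h hA
        have hne : (1 - ((2 * j + 1 : ℕ) : ℝ) ^ 2) ≠ 0 := by
          have hj' : (1 : ℝ) ≤ j := by exact_mod_cast hj
          push_cast
          nlinarith
        rw [(hodd j hjm).1, (hodd j hjm).2] at h1
        exact ⟨(mul_eq_zero.1 h1.1.symm).resolve_left hne,
          (mul_eq_zero.1 h1.2.symm).resolve_left hne⟩
    constructor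
    · have e : ∀ t, (hs φ Θ a t - D / 2) * Real.cos ((2 * j + 1 : ℕ) * Θ t) * deriv Θ t =
          hs φ Θ a t * Real.cos ((2 * j + 1 : ℕ) * Θ t) * deriv Θ t -
            D / 2 * (Real.cos ((2 * j + 1 : ℕ) * Θ t) * deriv Θ t) := fun t => by ring
      simp only [e]
      rw [intervalIntegral.integral_sub, intervalIntegral.integral_const_mul, hI.1, hcos0]
      · ring
      · exact Continuous.intervalIntegrable (by fun_prop) _ _
      · exact Continuous.intervalIntegrable (by fun_prop) _ _
    · have e : ∀ t, (hs φ Θ a t - D / 2) * Real.sin ((2 * j + 1 : ℕ) * Θ t) * deriv Θ t =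
          hs φ Θ a t * Real.sin ((2 * j + 1 : ℕ) * Θ t) * deriv Θ t -
            D / 2 * (Real.sin ((2 * j + 1 : ℕ) * Θ t) * deriv Θ t) := fun t => by ring
      simp only [e]
      rw [intervalIntegral.integral_sub, intervalIntegral.integral_const_mul, hI.2, hsin0]
      · ring
      · exact Continuous.intervalIntegrable (by fun_prop) _ _
      · exact Continuous.intervalIntegrable (by fun_prop) _ _

end Pool.Agent.P8H65.EV
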